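import Pool.Agent.J4H60.IF.Stm

/-!
# Project IF, piece (T): a perfect matching on 20 vertices has at most `3 ^ 10` independent sets
-/

set_option autoImplicit false

namespace Pool.Agent.J4H30.IF

open Finset Pool.Agent.J4H60.IF

theorem aux (n : ℕ) : ∀ G : Finset V, (∀ X ∈ G, X.card = 3) → G.card = 2 * n →
    (∀ X ∈ G, ∃! Y, Y ∈ G ∧ Disjoint X Y) → ind G ≤ 3 ^ n := by
  induction n with
  | zero =>
    intro G _ hG _
    have h0 : G = ∅ := by simpa using hG
    subst h0
    unfold ind
    refine (Finset.card_filter_le _ _).trans ?_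
    simp
  | succ n ih =>
    intro G h3 hG hm
    have hne : G.Nonempty := by
      rw [← Finset.card_pos]
      omega
    obtain ⟨X, hX⟩ := hne
    obtain ⟨Y, ⟨hY, hXY⟩, huX⟩ := hm X hX
    have hXne : X ≠ Y := by
      rintro rfl
      have h1 := h3 X hX
      have h2 : X = ∅ := by simpa using hXY
      rw [h2] at h1
      simp at h1
    have huY : ∀ Z ∈ G, Disjoint Y Z → Z = X := by
      intro Z hZ hYZ
      obtain ⟨W, _, hW⟩ := hm Y hY
      rw [hW Z ⟨hZ, hYZ⟩, hW X ⟨hX, hXY.symm⟩]
    have hsub : ({X, Y} : Finset V) ⊆ G := by
      intro Z hZ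
      rcases Finset.mem_insert.mp hZ with rfl | h
      · exact hX
      · rw [Finset.mem_singleton.mp h]
        exact hY
    have hmem : ∀ Z, Z ∈ G \ {X, Y} ↔ Z ∈ G ∧ Z ≠ X ∧ Z ≠ Y := by
      intro Z
      simp
    have hcard : (G \ {X, Y}).card = 2 * n := by
      rw [Finset.card_sdiff_of_subset hsub, Finset.card_pair hXne]
      omega
    have hih := ih (G \ {X, Y}) (fun Z hZ => h3 Z ((hmem Z).mp hZ).1) hcard (by
      intro Z hZ
      obtain ⟨hZG, hZX, hZY⟩ := (hmem Z).mp hZ
      obtain ⟨W, ⟨hW, hZW⟩, hu⟩ := hm Z hZG
      refine ⟨W, ⟨(hmem W).mpr ⟨hW, ?_, ?_⟩, hZW⟩,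
        fun W' hW' => hu W' ⟨((hmem W').mp hW'.1).1, hW'.2⟩⟩
      · rintro rfl
        exact hZY (huX Z ⟨hZG, hZW.symm⟩)
      · rintro rfl
        exact hZX (huY Z hZG hZW.symm))
    have key : ind G ≤ 3 * ind (G \ {X, Y}) := by
      have h3' : (({∅, {X}, {Y}} : Finset (Finset V))).card ≤ 3 := Finset.card_le_three
      have hle : ind G ≤ (({∅, {X}, {Y}} : Finset (Finset V)) ×ˢ
          ((G \ {X, Y}).powerset.filter
            (fun F => ∀ X ∈ F, ∀ Y ∈ F, X ≠ Y → ¬ Disjoint X Y))).card := by
        refine Finset.card_le_card_of_injOn (fun F => (F ∩ {X, Y}, F \ {X, Y})) ?_ ?_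
        · intro F hF
          have hF' := Finset.mem_filter.mp (Finset.mem_coe.mp hF)
          have hFG := Finset.mem_powerset.mp hF'.1
          refine Finset.mem_coe.mpr (Finset.mem_product.mpr ⟨?_, ?_⟩)
          · have hnot : ¬ (X ∈ F ∧ Y ∈ F) := fun h => hF'.2 X h.1 Y h.2 hXne hXY
            change F ∩ {X, Y} ∈ ({∅, {X}, {Y}} : Finset (Finset V))
            by_cases hx : X ∈ F
            · have hy : Y ∉ F := fun h => hnot ⟨hx, h⟩
              have : F ∩ {X, Y} = {X} := by
                ext Z
                simp only [Finset.mem_inter, Finset.mem_insert, Finset.mem_singleton]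
                constructor
                · rintro ⟨h1, h2 | h2⟩
                  · exact h2
                  · exact absurd (h2 ▸ h1) hy
                · rintro rfl
                  exact ⟨hx, Or.inl rfl⟩
              rw [this]
              simp
            · by_cases hy : Y ∈ F
              · have : F ∩ {X, Y} = {Y} := by
                  ext Z
                  simp only [Finset.mem_inter, Finset.mem_insert, Finset.mem_singleton]
                  constructor
                  · rintro ⟨h1, h2 | h2⟩
                    · exact absurd (h2 ▸ h1) hx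
                    · exact h2
                  · rintro rfl
                    exact ⟨hy, Or.inr rfl⟩
                rw [this]
                simp
              · have : F ∩ {X, Y} = ∅ := by
                  ext Z
                  simp only [Finset.mem_inter, Finset.mem_insert, Finset.mem_singleton]
                  constructor
                  · rintro ⟨h1, h2 | h2⟩
                    · exact absurd (h2 ▸ h1) hx
                    · exact absurd (h2 ▸ h1) hy
                  · intro h
                    simp at h
                rw [this]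
                simp
          · refine Finset.mem_filter.mpr ⟨Finset.mem_powerset.mpr
              (Finset.sdiff_subset_sdiff hFG (Finset.Subset.refl _)), ?_⟩
            intro Z hZ W hW
            exact hF'.2 Z (Finset.mem_sdiff.mp hZ).1 W (Finset.mem_sdiff.mp hW).1
        · intro F _ F' _ h
          have h1 : F ∩ {X, Y} = F' ∩ {X, Y} := congrArg Prod.fst h
          have h2 : F \ {X, Y} = F' \ {X, Y} := congrArg Prod.snd h
          rw [← Finset.sdiff_union_inter F {X, Y}, ← Finset.sdiff_union_inter F' {X, Y}, h1, h2]
      refine hle.trans ?_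
      rw [Finset.card_product]
      exact Nat.mul_le_mul_right _ h3'
    calc ind G ≤ 3 * ind (G \ {X, Y}) := key
      _ ≤ 3 * 3 ^ n := Nat.mul_le_mul_left _ hih
      _ = 3 ^ (n + 1) := by ring

theorem t_T : S_T := fun G h3 hG hm => aux 10 G h3 hG hm

end Pool.Agent.J4H30.IF
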